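import Pool.Agent.H343.QF.StQ
import Pool.Graph.R_seed8.TH68.T1

set_option autoImplicit false
set_option linter.unusedSectionVars false

/-! MP_9a852a_al, Q5: the quotient by a rotating family has no new torsion. -/

namespace Pool.Agent.H415.QF

open Pool.Agent.TH68 Pool.Agent.Helper97.Hyp Pool.Agent.H343.AN Pool.Agent.H343.QF

section q5

variable {Γ : Type} [Group Γ] {W : WNorm Γ} {𝒜 : Type} [MulAction Γ 𝒜]

/-- elements of the killed subgroup rotate strongly about an axis -/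
lemma factWSp (Y : Sys Γ W 𝒜) (R : Sp Y) (hM : 53 * Y.θ < R.ρ) {n : Γ} (hn : n ∈ R.N)
    (hn1 : n ≠ 1) (x : Pt W) :
    ∃ A, ∃ r ∈ R.G A, ∃ q1 ∈ Y.S A, ∃ q2 ∈ Y.S A, dist (r • q1) q2 ≤ 51 * Y.θ ∧
      R.ρ - 51 * Y.θ ≤ dist q1 q2 ∧
      dist x q1 + dist q1 q2 + dist q2 (n • x) ≤ dist x (n • x) + 4 * Y.θ := by
  have hδ := Y.hδ
  have hθ := Y.hθ
  obtain ⟨A, r, hr, hr1, hpd⟩ := R.wind n hn hn1 x
  obtain ⟨q1, hq1⟩ := Y.proj A x
  obtain ⟨q2, hq2⟩ := Y.proj A (n • x)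
  have h1 : IsProj Y.θ (Y.S A) (r • x) (r • q1) := hq1.smul (Y.mem_iff (R.fix A r hr))
  have h2 := le_pd_of_proj h1 hq2
  have h3 := R.far A r hr hr1 q1 hq1.1
  have h4 := dist_triangle q1 q2 (r • q1)
  rw [dist_comm q2 (r • q1)] at h4
  refine ⟨A, r, hr, q1, hq1.1, q2, hq2.1, by linarith, by linarith, ?_⟩
  have h5 := far_of_proj Y.hyp hq1 hq2 (by linarith)
  rw [dist_comm (n • x) q2] at h5
  linarith

/-- the case of a small displacement -/
lemma shortSp (h1 : S_q1) (hord : S_order) (hod : S_odist) (Y : Sys Γ W 𝒜) (R : Sp Y)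
    (hρ : 10 ^ 5 * Y.θ ≤ R.ρ) (v : Γ) (k : ℕ) (hvN : v ^ k ∈ R.N) (hvk : v ^ k ≠ 1) (x : Pt W)
    (hl : dist x (v • x) ≤ 100 * Y.θ) : ∃ A : 𝒜, v • A = A := by
  have hδ := Y.hδ
  have hθ := Y.hθ
  obtain ⟨A, r, hr, hr1, -, hpd⟩ := h1 Y R hvN hvk x
  refine ⟨A, ?_⟩
  by_contra hne
  have hT : ∀ y, y ∈ Y.S (v • A) ↔ v⁻¹ • y ∈ Y.S A := by
    intro y
    constructor
    · intro hy
      have := Y.smul_mem v⁻¹ (v • A) y hy
      rwa [inv_smul_smul] at this
    · intro hy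
      have := Y.smul_mem v A _ hy
      rwa [smul_inv_smul] at this
  have e1 : pd (Y.S (v • A)) (v • x) (v • (v ^ k • x)) = pd (Y.S A) x (v ^ k • x) :=
    pd_smul (Y.Sne A) hT x (v ^ k • x)
  have e2 : v • (v ^ k • x) = v ^ k • (v • x) := by
    rw [smul_smul, smul_smul, ← pow_succ', ← pow_succ]
  have e3 := pd_tri (Y.Sne (v • A)) (v • x) x (v • (v ^ k • x))
  have e4 := pd_tri (Y.Sne (v • A)) x (v ^ k • x) (v • (v ^ k • x))
  have e5 := pd_le_dist (Y.Sne (v • A)) (v • x) x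
  have e6 := pd_le_dist (Y.Sne (v • A)) (v ^ k • x) (v • (v ^ k • x))
  rw [dist_comm] at e5
  have e7 : dist (v ^ k • x) (v • (v ^ k • x)) = dist x (v • x) := by rw [e2, dist_smul]
  have e8 : R.ρ - 251 * Y.θ ≤ pd (Y.S (v • A)) x (v ^ k • x) := by linarith
  rcases hord Y (fun h => hne h.symm) x (v ^ k • x) (by linarith) (by linarith) with h2 | h2
  · obtain ⟨a, ha⟩ := Y.proj A x
    have h3 := (h2 a ha.1 (v • a) (Y.smul_mem v A a ha.1)).2
    have h4 := hod Y (by linarith) h3 ha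
    have h5 := dist_triangle x (v • x) (v • a)
    rw [dist_smul] at h5
    linarith
  · obtain ⟨b, hb⟩ := Y.proj (v • A) x
    have h3 := (h2 (v⁻¹ • b) ((hT b).1 hb.1) b hb.1).2
    have h4 := hod Y (by linarith) h3 hb
    have h5 : dist x (v⁻¹ • b) = dist (v • x) b := by rw [← dist_smul v, smul_inv_smul]
    have h6 := dist_triangle (v • x) x b
    rw [dist_comm (v • x) x] at h6
    linarith

end q5

theorem q5 : S_q1 → S_order → S_odist → S_q5 := by
  intro h1 hord hod Γ _ W 𝒜 _ Y R hρ htf hst u k hk hN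
  classical
  have hδ := Y.hδ
  have hθ := Y.hθ
  -- the lift of least displacement
  obtain ⟨⟨n, x⟩, hmin⟩ : ∃ t : R.N × Pt W, ∀ t' : R.N × Pt W,
      nd t.2 (((t.1 : Γ) * u) • t.2) ≤ nd t'.2 (((t'.1 : Γ) * u) • t'.2) := by
    have hne : (Set.univ : Set (R.N × Pt W)).Nonempty := ⟨(1, pt W 1), trivial⟩
    obtain ⟨t, ht⟩ := WellFounded.has_min
      (measure fun t : R.N × Pt W => nd t.2 (((t.1 : Γ) * u) • t.2)).wf Set.univ hne
    exact ⟨t, fun t' => not_lt.1 (ht.2 t' trivial)⟩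
  obtain ⟨v, hv⟩ : ∃ v, v = (n : Γ) * u := ⟨_, rfl⟩
  have hmin' : ∀ g ∈ R.N, ∀ y : Pt W, dist x (v • x) ≤ dist y ((g * v) • y) := by
    intro g hg y
    have := hmin (⟨g * n, R.N.mul_mem hg n.2⟩, y)
    rw [dist_eq_nd, dist_eq_nd, hv, ← mul_assoc]
    exact_mod_cast this
  have hvN : v ^ k ∈ R.N := by
    rw [← QuotientGroup.eq_one_iff] at hN ⊢
    rw [QuotientGroup.mk_pow] at hN ⊢
    rw [hv, QuotientGroup.mk_mul, (QuotientGroup.eq_one_iff (n : Γ)).2 n.2, one_mul]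
    exact hN
  have huv : u = (n : Γ)⁻¹ * v := by rw [hv]; group
  suffices hvv' : v ∈ R.N by
    rw [huv]; exact R.N.mul_mem (R.N.inv_mem n.2) hvv'
  by_cases hv1 : v = 1
  · rw [hv1]; exact R.N.one_mem
  have hvk : v ^ k ≠ 1 := fun h => hv1 (htf v k hk h)
  suffices hA : ∃ A : 𝒜, v • A = A by
    obtain ⟨A, hA⟩ := hA
    exact hst A v hA
  by_cases hl : dist x (v • x) ≤ 100 * Y.θ
  · exact shortSp h1 hord hod Y R hρ v k hvN hvk x hl
  push Not at hl
  obtain ⟨l, hld⟩ : ∃ l, l = dist x (v • x) := ⟨_, rfl⟩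
  rw [← hld] at hl hmin'
  -- the midpoint
  obtain ⟨L, hL⟩ : ∃ L : ℕ, l = L := ⟨nd x (v • x), by rw [hld, dist_eq_nd]⟩
  obtain ⟨h, hh⟩ : ∃ h : ℕ, h = L / 2 := ⟨_, rfl⟩
  have hh1 : (2 : ℝ) * h ≤ l := by
    rw [hL]
    have : 2 * h ≤ L := by omega
    exact_mod_cast this
  have hh2 : l - 1 ≤ (2 : ℝ) * h := by
    rw [hL]
    have : L ≤ 2 * h + 1 := by omega
    have : (L : ℝ) ≤ 2 * h + 1 := by exact_mod_cast this
    linarith
  have hh0 : (0 : ℝ) ≤ h := Nat.cast_nonneg _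
  obtain ⟨y, hy1, hy2⟩ := exists_between x (v • x) h (by rw [← hld]; linarith)
  rw [← hld] at hy2
  have hy3 : dist (v • x) (v • y) = h := by rw [dist_smul]; exact hy1
  have hy4 : l ≤ dist y (v • y) := by
    have := hmin' 1 R.N.one_mem y
    rwa [one_mul] at this
  have hvv : dist (v • x) (v ^ 2 • x) = l := by
    rw [pow_two, mul_smul, dist_smul, ← hld]
  have e0 : exc y (v • y) (v • x) ≤ 0 := by
    unfold exc; linarith
  have e1 : exc x (v • y) (v • x) ≤ 2 * Y.δ := by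
    rcases exc_split Y.hyp y (v • y) x (v • x) with h1 | h1
    · exfalso
      unfold exc at h1 e0
      rw [dist_comm (v • x) x, ← hld, dist_comm y x, hy1, hy2] at h1
      rw [hy2] at e0
      linarith
    · linarith
  have e2 : exc x (v ^ 2 • x) (v • x) ≤ 4 * Y.δ := by
    rcases exc_split Y.hyp x (v • y) (v ^ 2 • x) (v • x) with h1 | h1
    · linarith
    · exfalso
      have h2 : dist (v ^ 2 • x) (v • y) = l - h := by
        rw [pow_two, mul_smul, dist_smul, dist_comm, hy2]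
      have h3 : exc (v ^ 2 • x) (v • y) (v • x) = 2 * h := by
        unfold exc
        rw [h2, hy3, dist_comm (v ^ 2 • x) (v • x), hvv]; ring
      rw [h3] at h1
      linarith
  -- the broken geodesic
  have b1 : ∀ i : ℕ, exc (v ^ i • x) (v ^ (i + 2) • x) (v ^ (i + 1) • x) ≤ 4 * Y.δ := by
    intro i
    have := exc_smul (v ^ i) x (v ^ 2 • x) (v • x)
    rw [smul_smul, smul_smul, ← pow_add, ← pow_succ] at this
    rw [this]; exact e2
  have b2 : ∀ i : ℕ, dist (v ^ i • x) (v ^ (i + 1) • x) = l := by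
    intro i
    rw [pow_succ, mul_smul, dist_smul, ← hld]
  have b3 : ∀ {i j m : ℕ}, i ≤ j → j ≤ m →
      exc (v ^ i • x) (v ^ m • x) (v ^ j • x) ≤ 8 * Y.δ := by
    intro i j m hij hjm
    have := bg Y.hyp (x := fun i => v ^ i • x) (a := 4 * Y.δ) (by linarith) b1
      (fun i => by
        change 4 * Y.δ + 3 * Y.δ < dist (v ^ i • x) (v ^ (i + 1) • x)
        rw [b2]; linarith) hij hjm
    change exc (v ^ i • x) (v ^ m • x) (v ^ j • x) ≤ 4 * Y.δ + 4 * Y.δ at this
    linarith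
  obtain ⟨A, r, hr, q1, hq1, q2, hq2, w1, w2, w3⟩ := factWSp Y R (by linarith) hvN hvk x
  obtain ⟨w, hw⟩ : ∃ w, w = v ^ (k + 1) • x := ⟨_, rfl⟩
  obtain ⟨xk, hxk⟩ : ∃ xk, xk = v ^ k • x := ⟨_, rfl⟩
  rw [← hxk] at w3
  have c1 : exc x w xk ≤ 8 * Y.δ := by
    have := b3 (i := 0) (j := k) (m := k + 1) (by omega) (by omega)
    rwa [pow_zero, one_smul, ← hw, ← hxk] at this
  have c2 : exc x w (v • x) ≤ 8 * Y.δ := by
    have := b3 (i := 0) (j := 1) (m := k + 1) (by omega) (by omega)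
    rwa [pow_zero, one_smul, ← hw, pow_one] at this
  have hvxk : v • xk = w := by rw [hxk, hw, pow_succ', mul_smul]
  -- distances of `v q` in terms of the distances of `q`
  have t1' : dist (v • x) (v • q1) = dist x q1 := dist_smul _ _ _
  have t2' : dist (v • x) (v • q2) = dist x q2 := dist_smul _ _ _
  have t3' : dist (v • q1) w = dist q1 xk := by rw [← hvxk, dist_smul]
  have t4' : dist (v • q2) w = dist q2 xk := by rw [← hvxk, dist_smul]
  have t5' : dist (v • x) w = dist x xk := by rw [← hvxk, dist_smul]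
  have t6 := dist_triangle q1 q2 xk
  have t7 := dist_triangle x q1 q2
  have t8 := dist_triangle x (v • x) (v • q1)
  have t9 := dist_triangle x (v • x) (v • q2)
  rw [t1', ← hld] at t8
  rw [t2', ← hld] at t9
  unfold exc at c1 c2
  rw [← hld, t5'] at c2
  have t10 := dist_triangle x (v • q1) w
  have t11 := dist_triangle x (v • q2) w
  have t12 := dist_triangle x q2 xk
  rw [t3'] at t10
  rw [t4'] at t11
  have d1 : exc x w q1 ≤ 12 * Y.θ := by
    have := dist_triangle q1 xk w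
    unfold exc; linarith
  have d2 : exc x w q2 ≤ 12 * Y.θ := by
    have := dist_triangle q2 xk w
    unfold exc; linarith
  have d3 : exc x w (v • q1) ≤ 12 * Y.θ := by
    unfold exc
    rw [t3']
    linarith
  have d4 : exc x w (v • q2) ≤ 12 * Y.θ := by
    unfold exc
    rw [t4']
    linarith
  by_cases hcase : dist x q2 - dist x q1 ≤ l + 21 * Y.θ
  · exfalso
    have f1 := order_close Y.hyp d3 d2
    have f2 := hmin' r⁻¹ (R.N.inv_mem (R.G_le A hr)) q1
    have f3 : dist q1 ((r⁻¹ * v) • q1) = dist (r • q1) (v • q1) := by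
      rw [mul_smul, ← dist_smul r, smul_inv_smul]
    rw [f3] at f2
    have f4 := dist_triangle (r • q1) q2 (v • q1)
    rw [dist_comm q2 (v • q1)] at f4
    rcases abs_cases (dist x (v • q1) - dist x q2) with ⟨f5, -⟩ | ⟨f5, -⟩
    · rw [f5] at f1
      linarith
    · rw [f5] at f1
      linarith
  · push Not at hcase
    refine ⟨A, ?_⟩
    by_contra hne
    have g0 := Y.small A (v • A) (fun h => hne h.symm) (v • q1) (Y.smul_mem v A q1 hq1) (v • q2)
      (Y.smul_mem v A q2 hq2)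
    have g1 := le_pd (S := Y.S A) (p := v • q1) (q := v • q2) hq2 hq1
    have g2 := order_close Y.hyp d3 d1
    have g3 := order_close Y.hyp d4 d2
    have g4 := dist_triangle x (v • q1) q2
    have g5 := dist_triangle x q1 (v • q2)
    rw [dist_comm q1 (v • q2)] at g5
    have g6 : |dist x (v • q1) - dist x q1| ≤ l := by
      rw [abs_le]
      constructor <;> linarith
    have g7 : |dist x (v • q2) - dist x q2| ≤ l := by
      rw [abs_le]
      constructor <;> linarith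
    linarith

end Pool.Agent.H415.QF
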